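import Mathlib
import Pool.Agent.W22.Jord559

/-!
# Jordan types of local Artinian algebras and contiguous partitions

Definitions of the Jordan type of an endomorphism, of the dominance order, of the Hilbert
function of a local algebra and of the contiguous partition of a sequence, and the theorem that
the Jordan type of an element of the maximal ideal of a local Artinian algebra `A` dominates the
contiguous partition of the Hilbert function of `A` only if this Hilbert function is unimodal and
the two partitions are equal.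
-/

set_option autoImplicit false

open Module

universe u v

namespace Pool.Agent.R686.JT

/-! ## Definitions -/

section defs

/-- `P` is the Jordan type of the (nilpotent) endomorphism `f`: there is a basis of `V` made of
strings `b (i, 0), ..., b (i, p i - 1)` with `f (b (i, a)) = b (i, a + 1)` and
`f (b (i, p i - 1)) = 0`, and `P` is the multiset of the lengths `p i ≥ 1` of the strings, that
is, of the sizes of the Jordan blocks of `f`. -/
def IsJordanType (k : Type u) {V : Type v} [Field k] [AddCommGroup V] [Module k V]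
    (f : V →ₗ[k] V) (P : Multiset ℕ) : Prop :=
  ∃ (ι : Type) (_ : Fintype ι) (p : ι → ℕ) (b : Basis (Σ i : ι, Fin (p i)) k V),
    (∀ i, 0 < p i) ∧
    (∀ (i : ι) (a : Fin (p i)),
      f (b ⟨i, a⟩) = if h : (a : ℕ) + 1 < p i then b ⟨i, ⟨(a : ℕ) + 1, h⟩⟩ else 0) ∧
    P = Finset.univ.val.map p

/-- The sum of the `q` largest parts of `P`. -/
def partialSum (P : Multiset ℕ) (q : ℕ) : ℕ := ((P.sort (· ≥ ·)).take q).sum

/-- `P` dominates `Q` in the dominance order: for each `q` the sum of the `q` largest parts of `P`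
is at least the sum of the `q` largest parts of `Q`. -/
def Dominates (P Q : Multiset ℕ) : Prop := ∀ q, partialSum Q q ≤ partialSum P q

/-- `P > Q`: `P` dominates `Q` and `P ≠ Q`. -/
def StrictlyDominates (P Q : Multiset ℕ) : Prop := Dominates P Q ∧ P ≠ Q

/-- Columns `a, a + 1, ..., b` form a maximal run of consecutive columns in row `t` of the bar
graph of `h`, row `t` being the set of the columns `i` with `h i ≥ t`. -/
def IsRun (h : ℕ → ℕ) (t a b : ℕ) : Prop :=
  a ≤ b ∧ (∀ i, a ≤ i → i ≤ b → t ≤ h i) ∧ (∀ i, i + 1 = a → h i < t) ∧ h (b + 1) < t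

/-- The triples `(t, a, b)` with `t ≥ 1` such that `a, ..., b` is a maximal run of row `t`. -/
def runs (h : ℕ → ℕ) : Set (ℕ × ℕ × ℕ) := {x | 1 ≤ x.1 ∧ IsRun h x.1 x.2.1 x.2.2}

open Classical in
/-- The contiguous partition `P_c(h)` of a sequence `h` with finitely many nonzero terms: its parts
are the lengths of the maximal runs of all rows `t ≥ 1` of the bar graph of `h`. (For such an `h`
the set of all these runs is finite.) -/
noncomputable def contiguous (h : ℕ → ℕ) : Multiset ℕ :=
  if hf : (runs h).Finite then hf.toFinset.val.map (fun x => x.2.2 - x.2.1 + 1) else 0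

/-- `h` is unimodal: it weakly increases and then weakly decreases. -/
def Unimodal (h : ℕ → ℕ) : Prop :=
  ∃ p, (∀ i, i < p → h i ≤ h (i + 1)) ∧ (∀ i, p ≤ i → h (i + 1) ≤ h i)

/-- The Hilbert function of a local `k`-algebra `A`: `i ↦ dim_k 𝔪 ^ i / 𝔪 ^ (i + 1)`. -/
noncomputable def hilb (k : Type u) (A : Type v) [Field k] [CommRing A] [Algebra k A]
    [IsLocalRing A] (i : ℕ) : ℕ :=
  finrank k (↥(IsLocalRing.maximalIdeal A ^ i) ⧸
    Submodule.submoduleOf (IsLocalRing.maximalIdeal A ^ (i + 1))
      (IsLocalRing.maximalIdeal A ^ i))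

end defs

/-! ## Partial sums of multisets -/

section multiset

lemma take_sum_cons {n : ℕ} : ∀ {a : ℕ} {l : List ℕ}, (a :: l).Pairwise (· ≥ ·) →
    (l.take n).sum ≤ ((a :: l).take n).sum := by
  induction n with
  | zero => intro a l _; simp
  | succ n ih =>
    intro a l h
    cases l with
    | nil => simp
    | cons b l =>
      have h1 := List.pairwise_cons.1 h
      have h2 := ih h1.2
      have h3 : b ≤ a := h1.1 b (by simp)
      simp only [List.take_succ_cons, List.sum_cons] at h2 ⊢
      omega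

lemma sum_le_take {l s : List ℕ} (hs : s.Sublist l) (hl : l.Pairwise (· ≥ ·)) :
    s.sum ≤ (l.take s.length).sum := by
  induction hs with
  | slnil => simp
  | @cons s l a hs ih =>
    exact (ih (List.pairwise_cons.1 hl).2).trans (take_sum_cons hl)
  | @cons_cons s l a hs ih =>
    have h1 := ih (List.pairwise_cons.1 hl).2
    simp only [List.length_cons, List.take_succ_cons, List.sum_cons]
    omega

lemma take_sum_mono (l : List ℕ) {m q : ℕ} (h : m ≤ q) : (l.take m).sum ≤ (l.take q).sum :=
  (List.take_sublist_take_left h).sum_le_sum (fun _ _ => Nat.zero_le _)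

lemma le_partialSum {P S : Multiset ℕ} (hS : S ≤ P) {q : ℕ} (hq : S.card ≤ q) :
    S.sum ≤ partialSum P q := by
  have h1 : ((S.sort (· ≥ ·) : List ℕ) : Multiset ℕ) ≤ (P.sort (· ≥ ·) : List ℕ) := by
    rw [Multiset.sort_eq, Multiset.sort_eq]; exact hS
  obtain ⟨s, hs1, hs2⟩ := Multiset.coe_le.1 h1
  have h2 := sum_le_take hs2 (Multiset.pairwise_sort P (· ≥ ·))
  have h3 : s.sum = S.sum := by
    rw [hs1.sum_eq, ← Multiset.sum_coe, Multiset.sort_eq]
  have h4 : s.length ≤ q := by
    rw [hs1.length_eq, Multiset.length_sort]; exact hq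
  rw [← h3]
  exact h2.trans (take_sum_mono _ h4)

lemma eq_of_take_sum : ∀ {l l' : List ℕ}, (∀ x ∈ l, 0 < x) → (∀ x ∈ l', 0 < x) →
    (∀ q, (l.take q).sum = (l'.take q).sum) → l = l' := by
  intro l
  induction l with
  | nil =>
    intro l' _ h2 h
    cases l' with
    | nil => rfl
    | cons b l' =>
      have := h 1
      have := h2 b (by simp)
      simp at *
      omega
  | cons a l ih =>
    intro l' h1 h2 h
    cases l' with
    | nil =>
      have := h 1
      have := h1 a (by simp)
      simp at *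
      omega
    | cons b l' =>
      have h3 := h 1
      simp at h3
      subst h3
      congr 1
      refine ih (fun x hx => h1 x (by simp [hx])) (fun x hx => h2 x (by simp [hx])) fun q => ?_
      have := h (q + 1)
      simpa using this

lemma eq_of_partialSum {P Q : Multiset ℕ} (hP : ∀ x ∈ P, 0 < x) (hQ : ∀ x ∈ Q, 0 < x)
    (h : ∀ q, partialSum P q = partialSum Q q) : P = Q := by
  have h1 : P.sort (· ≥ ·) = Q.sort (· ≥ ·) :=
    eq_of_take_sum (fun x hx => hP x (by simpa using hx)) (fun x hx => hQ x (by simpa using hx)) h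
  rw [← Multiset.sort_eq P (· ≥ ·), h1, Multiset.sort_eq]

lemma partialSum_map {ι : Type} [Fintype ι] (p : ι → ℕ) (q : ℕ) :
    ∃ T : Finset ι, T.card ≤ q ∧ partialSum (Finset.univ.val.map p) q = ∑ i ∈ T, p i := by
  classical
  have h1 : (((Finset.univ.val.map p).sort (· ≥ ·)).take q : Multiset ℕ) ≤
      (((Finset.univ : Finset ι).toList.map p : List ℕ) : Multiset ℕ) := by
    rw [← Multiset.map_coe, Finset.coe_toList]
    calc _ ≤ (((Finset.univ.val.map p).sort (· ≥ ·) : List ℕ) : Multiset ℕ) :=
          (List.take_sublist _ _).subperm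
      _ = _ := Multiset.sort_eq _ _
  obtain ⟨s, hs1, hs2⟩ := Multiset.coe_le.1 h1
  obtain ⟨l', hl', rfl⟩ := List.sublist_map_iff.1 hs2
  have hnd : l'.Nodup := hl'.nodup (Finset.nodup_toList _)
  refine ⟨l'.toFinset, ?_, ?_⟩
  · rw [List.toFinset_card_of_nodup hnd]
    have := hs1.length_eq
    rw [List.length_map] at this
    rw [this]
    exact List.length_take_le _ _
  · unfold partialSum
    rw [← hs1.sum_eq, Finset.sum, List.toFinset_val, hnd.dedup, Multiset.map_coe, Multiset.sum_coe]

end multiset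

/-! ## Linear algebra -/

section core

variable {k : Type u} {V : Type v} [Field k] [AddCommGroup V] [Module k V] [FiniteDimensional k V]

lemma finrank_map_add (f : V →ₗ[k] V) (W : Submodule k V) :
    finrank k (W.map f) + finrank k (W ⊓ LinearMap.ker f : Submodule k V) = finrank k W := by
  have h1 := LinearMap.finrank_range_add_finrank_ker (f.domRestrict W)
  have h2 : LinearMap.range (f.domRestrict W) = W.map f := by
    rw [LinearMap.domRestrict, LinearMap.range_comp, Submodule.range_subtype]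
  have h3 : finrank k (LinearMap.ker (f.domRestrict W))
      = finrank k (W ⊓ LinearMap.ker f : Submodule k V) := by
    have h4 : (LinearMap.ker (f.domRestrict W)).map W.subtype = W ⊓ LinearMap.ker f := by
      ext x
      simp only [Submodule.mem_map, LinearMap.mem_ker, Submodule.mem_inf, Submodule.subtype_apply,
        LinearMap.domRestrict_apply]
      constructor
      · rintro ⟨y, hy, rfl⟩
        exact ⟨y.2, hy⟩
      · rintro ⟨hx, hx'⟩
        exact ⟨⟨x, hx⟩, hx', rfl⟩
    rw [← h4]
    exact (Submodule.finrank_map_subtype_eq _ _).symm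
  rw [h2, h3] at h1
  exact h1

lemma sum_tel {D : ℕ} (a : ℕ → ℕ) (ha : ∀ i, a (i + 1) ≤ a i) :
    ∑ i ∈ Finset.range D, (a i - a (i + 1)) + a D = a 0 := by
  induction D with
  | zero => simp
  | succ D ih =>
    rw [Finset.sum_range_succ]
    have := ha D
    omega

section chain

variable {q : ℕ} {f : V →ₗ[k] V} {M : ℕ → Submodule k V} {N : Submodule k V}

lemma d_le_h (hanti : ∀ i, M (i + 1) ≤ M i) (i : ℕ) :
    finrank k (N ⊓ M i : Submodule k V) - finrank k (N ⊓ M (i + 1) : Submodule k V) ≤
      finrank k (M i) - finrank k (M (i + 1)) ∧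
    (finrank k (N ⊓ M i : Submodule k V) - finrank k (N ⊓ M (i + 1) : Submodule k V) =
      finrank k (M i) - finrank k (M (i + 1)) → M i ≤ (N ⊓ M i) ⊔ M (i + 1)) := by
  have h1 := Submodule.finrank_sup_add_finrank_inf_eq (N ⊓ M i) (M (i + 1))
  have h2 : (N ⊓ M i) ⊓ M (i + 1) = N ⊓ M (i + 1) := by
    rw [inf_assoc, inf_eq_right.2 (hanti i)]
  have h3 : (N ⊓ M i) ⊔ M (i + 1) ≤ M i := sup_le inf_le_right (hanti i)
  have h4 := Submodule.finrank_mono h3
  have h5 : finrank k (M (i + 1)) ≤ finrank k ((N ⊓ M i) ⊔ M (i + 1) : Submodule k V) :=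
    Submodule.finrank_mono le_sup_right
  rw [h2] at h1
  refine ⟨by omega, fun h => ?_⟩
  have h6 : finrank k ((N ⊓ M i) ⊔ M (i + 1) : Submodule k V) = finrank k (M i) := by
    have h7 : finrank k (N ⊓ M (i + 1) : Submodule k V) ≤ finrank k (N ⊓ M i : Submodule k V) :=
      Submodule.finrank_mono (inf_le_inf_left _ (hanti i))
    omega
  exact (Submodule.eq_of_le_of_finrank_eq h3 h6).ge

lemma d_le_q (hanti : ∀ i, M (i + 1) ≤ M i) (hf : ∀ i, (M i).map f ≤ M (i + 1))
    (hN : N.map f ≤ N) (hq : finrank k N ≤ finrank k (N.map f) + q) (i : ℕ) :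
    finrank k (N ⊓ M i : Submodule k V) - finrank k (N ⊓ M (i + 1) : Submodule k V) ≤ q ∧
    (finrank k (N ⊓ M i : Submodule k V) - finrank k (N ⊓ M (i + 1) : Submodule k V) = q →
      N ⊓ M (i + 1) ≤ (N ⊓ M i).map f) := by
  have h1 := finrank_map_add f N
  have h2 := finrank_map_add f (N ⊓ M i)
  have h3 : finrank k ((N ⊓ M i) ⊓ LinearMap.ker f : Submodule k V) ≤
      finrank k (N ⊓ LinearMap.ker f : Submodule k V) :=
    Submodule.finrank_mono (inf_le_inf_right _ inf_le_left)
  have h4 : (N ⊓ M i).map f ≤ N ⊓ M (i + 1) :=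
    le_inf ((Submodule.map_mono inf_le_left).trans hN)
      ((Submodule.map_mono inf_le_right).trans (hf i))
  have h5 := Submodule.finrank_mono h4
  have h7 : finrank k (N ⊓ M (i + 1) : Submodule k V) ≤ finrank k (N ⊓ M i : Submodule k V) :=
      Submodule.finrank_mono (inf_le_inf_left _ (hanti i))
  refine ⟨by omega, fun h => ?_⟩
  exact (Submodule.eq_of_le_of_finrank_eq h4 (by omega)).ge

theorem core {D : ℕ} (hM0 : M 0 = ⊤)
    (hMD : M D = ⊥) (hanti : ∀ i, M (i + 1) ≤ M i) (hf : ∀ i, (M i).map f ≤ M (i + 1))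
    (hN : N.map f ≤ N) (hq : finrank k N ≤ finrank k (N.map f) + q) :
    finrank k N ≤ ∑ i ∈ Finset.range D, min q (finrank k (M i) - finrank k (M (i + 1))) ∧
    (∑ i ∈ Finset.range D, min q (finrank k (M i) - finrank k (M (i + 1))) ≤ finrank k N →
      ∀ i, i < D →
        (q ≤ finrank k (M i) - finrank k (M (i + 1)) → N ⊓ M (i + 1) ≤ (N ⊓ M i).map f) ∧
        (finrank k (M i) - finrank k (M (i + 1)) ≤ q → M i ≤ (N ⊓ M i) ⊔ M (i + 1))) := by
  have h0 : finrank k N = ∑ i ∈ Finset.range D,
      (finrank k (N ⊓ M i : Submodule k V) - finrank k (N ⊓ M (i + 1) : Submodule k V)) := by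
    have h1 := sum_tel (D := D) (fun i => finrank k (N ⊓ M i : Submodule k V))
      (fun i => Submodule.finrank_mono (inf_le_inf_left _ (hanti i)))
    rw [hM0, hMD, inf_bot_eq, finrank_bot, inf_top_eq] at h1
    omega
  have h1 : ∀ i ∈ Finset.range D,
      finrank k (N ⊓ M i : Submodule k V) - finrank k (N ⊓ M (i + 1) : Submodule k V) ≤
      min q (finrank k (M i) - finrank k (M (i + 1))) := fun i _ =>
    le_min (d_le_q hanti hf hN hq i).1 (d_le_h hanti i).1
  refine ⟨by rw [h0]; exact Finset.sum_le_sum h1, fun h i hi => ?_⟩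
  have h2 := (Finset.sum_eq_sum_iff_of_le h1).1 (le_antisymm (Finset.sum_le_sum h1) (h0 ▸ h))
  have h3 := h2 i (Finset.mem_range.2 hi)
  refine ⟨fun h4 => (d_le_q hanti hf hN hq i).2 ?_, fun h4 => (d_le_h hanti i).2 ?_⟩
  · rw [h3, min_eq_left h4]
  · rw [h3, min_eq_right h4]

end chain

end core

/-! ## The contiguous partition -/

section contig

variable {h : ℕ → ℕ} {D : ℕ}

lemma runs_finite (hD : ∀ i, D ≤ i → h i = 0) : (runs h).Finite := by
  refine Set.Finite.subset (Finset.finite_toSet
    (Finset.range (∑ i ∈ Finset.range D, h i + 1) ×ˢ Finset.range D ×ˢ Finset.range D)) ?_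
  rintro ⟨t, a, b⟩ ⟨ht, hab, h1, -, -⟩
  simp only at ht hab h1
  have ha : a < D := by
    by_contra hc
    have := h1 a le_rfl hab
    rw [hD a (not_lt.1 hc)] at this
    omega
  have hb : b < D := by
    by_contra hc
    have := h1 b hab le_rfl
    rw [hD b (not_lt.1 hc)] at this
    omega
  have hta : t ≤ h a := h1 a le_rfl hab
  have : h a ≤ ∑ i ∈ Finset.range D, h i :=
    Finset.single_le_sum (f := h) (fun _ _ => Nat.zero_le _) (Finset.mem_range.2 ha)
  simp only [Finset.coe_product, Set.mem_prod, Finset.coe_range, Set.mem_Iio]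
  omega

/-- An unbroken row. -/
lemma exists_run (hD : ∀ i, D ≤ i → h i = 0) {t : ℕ} (ht : 1 ≤ t) (hne : ∃ i, t ≤ h i)
    (hc : ∀ i v j, i < v → v < j → t ≤ h i → t ≤ h j → t ≤ h v) :
    ∃ a b, IsRun h t a b ∧ b - a + 1 = ((Finset.range D).filter (fun i => t ≤ h i)).card := by
  classical
  set F := (Finset.range D).filter (fun i => t ≤ h i) with hF
  have hmem : ∀ i, i ∈ F ↔ t ≤ h i := by
    intro i
    rw [hF, Finset.mem_filter, Finset.mem_range]
    refine ⟨fun x => x.2, fun x => ⟨?_, x⟩⟩
    by_contra hc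
    rw [hD i (not_lt.1 hc)] at x
    omega
  have hFne : F.Nonempty := by
    obtain ⟨i, hi⟩ := hne
    exact ⟨i, (hmem i).2 hi⟩
  set a := F.min' hFne
  set b := F.max' hFne
  have hab : a ≤ b := F.min'_le _ (F.max'_mem hFne)
  have hta : t ≤ h a := (hmem a).1 (F.min'_mem hFne)
  have htb : t ≤ h b := (hmem b).1 (F.max'_mem hFne)
  have hFI : F = Finset.Icc a b := by
    ext i
    rw [Finset.mem_Icc]
    constructor
    · intro hi
      exact ⟨F.min'_le _ hi, F.le_max' _ hi⟩
    · rintro ⟨h1, h2⟩
      rw [hmem]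
      rcases h1.eq_or_lt with h1 | h1
      · rw [← h1]; exact hta
      rcases h2.eq_or_lt with h2 | h2
      · rw [h2]; exact htb
      exact hc a i b h1 h2 hta htb
  refine ⟨a, b, ⟨hab, ?_, ?_, ?_⟩, ?_⟩
  · intro i h1 h2
    rw [← hmem, hFI, Finset.mem_Icc]
    exact ⟨h1, h2⟩
  · intro i hi
    by_contra hcon
    have := (hmem i).2 (not_lt.1 hcon)
    rw [hFI, Finset.mem_Icc] at this
    omega
  · by_contra hcon
    have := (hmem (b + 1)).2 (not_lt.1 hcon)
    rw [hFI, Finset.mem_Icc] at this
    omega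
  · rw [hFI, Nat.card_Icc]
    omega

lemma sum_min (q : ℕ) : ∑ i ∈ Finset.range D, min q (h i) =
    ∑ t ∈ Finset.Icc 1 q, ((Finset.range D).filter (fun i => t ≤ h i)).card := by
  simp_rw [Finset.card_filter]
  rw [Finset.sum_comm]
  refine Finset.sum_congr rfl fun i _ => ?_
  rw [← Finset.card_filter]
  have : (Finset.Icc 1 q).filter (fun t => t ≤ h i) = Finset.Icc 1 (min q (h i)) := by
    ext t
    simp only [Finset.mem_filter, Finset.mem_Icc, le_min_iff]
    omega
  rw [this, Nat.card_Icc]
  omega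

lemma sum_min_le (hD : ∀ i, D ≤ i → h i = 0) {q : ℕ}
    (hc : ∀ i v j, i < v → v < j → h v < h i → h v < h j → q ≤ h v) :
    ∑ i ∈ Finset.range D, min q (h i) ≤ partialSum (contiguous h) q := by
  classical
  have hc' : ∀ t, t ≤ q → ∀ i v j, i < v → v < j → t ≤ h i → t ≤ h j → t ≤ h v := by
    intro t ht i v j h1 h2 h3 h4
    by_contra hcon
    have := hc i v j h1 h2 (by omega) (by omega)
    omega
  have hex : ∀ t, ∃ x : ℕ × ℕ × ℕ, x.1 = t ∧ (1 ≤ t → t ≤ q → (∃ i, t ≤ h i) →
      IsRun h t x.2.1 x.2.2 ∧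
        x.2.2 - x.2.1 + 1 = ((Finset.range D).filter (fun i => t ≤ h i)).card) := by
    intro t
    by_cases hyp : 1 ≤ t ∧ t ≤ q ∧ ∃ i, t ≤ h i
    · obtain ⟨a, b, h1, h2⟩ := exists_run hD hyp.1 hyp.2.2 (hc' t hyp.2.1)
      exact ⟨(t, a, b), rfl, fun _ _ _ => ⟨h1, h2⟩⟩
    · exact ⟨(t, 0, 0), rfl, fun h1 h2 h3 => absurd ⟨h1, h2, h3⟩ hyp⟩
  choose X hX1 hX2 using hex
  have hinj : Function.Injective X := fun s t hst => by
    rw [← hX1 s, ← hX1 t, hst]
  set G := (Finset.Icc 1 q).filter (fun t => ∃ i, t ≤ h i) with hG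
  have hsum : ∑ i ∈ Finset.range D, min q (h i) =
      ∑ x ∈ G.image X, (x.2.2 - x.2.1 + 1) := by
    rw [sum_min, Finset.sum_image (fun _ _ _ _ hst => hinj hst), hG]
    rw [Finset.sum_filter]
    refine Finset.sum_congr rfl fun t ht => ?_
    rw [Finset.mem_Icc] at ht
    split_ifs with hi
    · exact (hX2 t ht.1 ht.2 hi).2.symm
    · rw [Finset.card_eq_zero, Finset.filter_eq_empty_iff]
      intro i _ hti
      exact hi ⟨i, hti⟩
  have hfin := runs_finite hD
  have hle : (G.image X).val.map (fun x : ℕ × ℕ × ℕ => x.2.2 - x.2.1 + 1) ≤ contiguous h := by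
    rw [contiguous, dif_pos hfin]
    refine Multiset.map_le_map (Finset.val_le_iff.2 ?_)
    intro x hx
    obtain ⟨t, ht, rfl⟩ := Finset.mem_image.1 hx
    rw [hG, Finset.mem_filter, Finset.mem_Icc] at ht
    rw [Set.Finite.mem_toFinset]
    refine ⟨by rw [hX1]; exact ht.1.1, ?_⟩
    rw [hX1]
    exact (hX2 t ht.1.1 ht.1.2 ht.2).1
  rw [hsum]
  refine le_partialSum hle ?_
  rw [Multiset.card_map, Finset.card_val]
  calc _ ≤ G.card := Finset.card_image_le
    _ ≤ (Finset.Icc 1 q).card := Finset.card_filter_le _ _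
    _ = q := by rw [Nat.card_Icc]; omega

lemma contiguous_pos : ∀ x ∈ contiguous h, 0 < x := by
  intro x hx
  unfold contiguous at hx
  split_ifs at hx with hf
  · obtain ⟨y, -, rfl⟩ := Multiset.mem_map.1 hx
    omega
  · simp at hx

lemma unimodal_of_no_valley (hD : ∀ i, D ≤ i → h i = 0)
    (hc : ∀ i v j, i < v → v < j → h v < h i → h v < h j → False) : Unimodal h := by
  obtain ⟨p, hp⟩ : ∃ p, ∀ i, h i ≤ h p := by
    obtain ⟨p, -, hp⟩ := Finset.exists_max_image (Finset.range (D + 1)) h ⟨0, by simp⟩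
    refine ⟨p, fun i => ?_⟩
    by_cases hi : i < D + 1
    · exact hp i (Finset.mem_range.2 hi)
    · rw [hD i (by omega)]; exact Nat.zero_le _
  refine ⟨p, fun i hi => ?_, fun i hi => ?_⟩
  · by_contra hcon
    have h1 := hp i
    have h2 : i + 1 ≠ p := by rintro rfl; omega
    exact hc i (i + 1) p (by omega) (by omega) (by omega) (by omega)
  · by_contra hcon
    have h1 := hp (i + 1)
    have h2 : p ≠ i := by rintro rfl; omega
    exact hc p i (i + 1) (by omega) (by omega) (by omega) (by omega)

end contig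

/-! ## The largest blocks -/

section blocks

variable {k : Type u} {V : Type v} [Field k] [AddCommGroup V] [Module k V] [FiniteDimensional k V]

/-- The `q` largest blocks span an invariant subspace `N` with at most `q` generators. -/
lemma exists_sub {f : V →ₗ[k] V} {P : Multiset ℕ} (hP : IsJordanType k f P) (q : ℕ) :
    ∃ N : Submodule k V, N.map f ≤ N ∧ finrank k N ≤ finrank k (N.map f) + q ∧
      finrank k N = partialSum P q := by
  classical
  obtain ⟨ι, _, p, b, hp, hf, rfl⟩ := hP
  obtain ⟨T, hTq, hT⟩ := partialSum_map p q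
  let w : (Σ i : T, Fin (p i)) → V := fun x => b ⟨x.1, x.2⟩
  have hw : LinearIndependent k w := by
    refine b.linearIndependent.comp (fun x : (Σ i : T, Fin (p i)) => (⟨x.1, x.2⟩ : Σ i, Fin (p i)))
      ?_
    rintro ⟨⟨i, hi⟩, a⟩ ⟨⟨j, hj⟩, c⟩ hij
    simp only [Sigma.mk.injEq] at hij
    obtain ⟨rfl, hac⟩ := hij
    rw [heq_iff_eq] at hac
    rw [hac]
  set N := Submodule.span k (Set.range w) with hN
  have hNmem : ∀ (i : ι) (_ : i ∈ T) (a : Fin (p i)), b ⟨i, a⟩ ∈ N := fun i hi a =>
    Submodule.subset_span ⟨⟨⟨i, hi⟩, a⟩, rfl⟩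
  have hmap : N.map f ≤ N := by
    rw [hN, Submodule.map_span, Submodule.span_le, ← hN]
    rintro _ ⟨_, ⟨⟨⟨i, hi⟩, a⟩, rfl⟩, rfl⟩
    change f (b ⟨i, a⟩) ∈ N
    rw [hf]
    split_ifs with h
    · exact hNmem i hi _
    · exact N.zero_mem
  refine ⟨N, hmap, ?_, ?_⟩
  · set G := Submodule.span k (Set.range fun i : T => b ⟨i, ⟨0, hp i⟩⟩) with hG
    have h1 : N ≤ G ⊔ N.map f := by
      rw [hN, Submodule.span_le, ← hN]
      rintro _ ⟨⟨⟨i, hi⟩, a⟩, rfl⟩
      change b ⟨i, a⟩ ∈ G ⊔ N.map f
      rcases a with ⟨a, ha⟩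
      cases a with
      | zero =>
        exact Submodule.mem_sup_left (Submodule.subset_span ⟨⟨i, hi⟩, rfl⟩)
      | succ a =>
        change a + 1 < p i at ha
        refine Submodule.mem_sup_right ⟨b ⟨i, ⟨a, by omega⟩⟩, hNmem i hi _, ?_⟩
        rw [hf, dif_pos (show ((⟨a, by omega⟩ : Fin (p i)) : ℕ) + 1 < p i from ha)]
    have h2 := Submodule.finrank_mono h1
    have h3 := Submodule.finrank_add_le_finrank_add_finrank G (N.map f)
    have h4 : finrank k G ≤ T.card := by
      have := finrank_range_le_card (R := k) (fun i : T => b ⟨i, ⟨0, hp i⟩⟩)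
      rw [Fintype.card_coe] at this
      exact this
    omega
  · rw [hT, hN, finrank_span_eq_card hw, Fintype.card_sigma]
    simp only [Fintype.card_fin]
    exact Finset.sum_coe_sort T p

end blocks

/-! ## Existence of the Jordan type -/

section existence

variable {k : Type u} {V : Type v} [Field k] [AddCommGroup V] [Module k V] [FiniteDimensional k V]

/-- Every nilpotent endomorphism of a finite-dimensional vector space has a Jordan type. -/
theorem exists_isJordanType (f : V →ₗ[k] V) {n : ℕ} (hf : f ^ n = 0) :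
    ∃ P, IsJordanType k f P := by
  obtain ⟨β, _, l, -, Y, hl, -, hY, hind, hspan⟩ :=
    Pool.Agent.W22.Jord559.aux (N := f) (h := 1) (by rw [mul_one, one_mul]) hf
      (m := 1) (by simp) (ω := 1) (IsPrimitiveRoot.one) (by simp) (finrank k V) ⊤
      (by rw [finrank_top]) le_top (fun _ _ => trivial)
  refine ⟨_, β, inferInstance, l, Basis.mk hind hspan.ge, hl, fun i a => ?_, rfl⟩
  rw [Basis.mk_apply]
  split_ifs with h
  · rw [Basis.mk_apply, ← Module.End.mul_apply, ← pow_succ']
  · rw [← Module.End.mul_apply, ← pow_succ']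
    have : (a : ℕ) + 1 = l i := by
      have := a.2
      omega
    simp only [this]
    exact hY i

end existence

/-! ## Local algebras -/

section local_alg

open IsLocalRing

variable (k : Type u) (A : Type v) [Field k] [CommRing A] [Algebra k A] [IsLocalRing A]

/-- The powers of the maximal ideal as `k`-subspaces. -/
def Mi (i : ℕ) : Submodule k A := (maximalIdeal A ^ i).restrictScalars k

variable [Module.Finite k A]

lemma hilb_eq (i : ℕ) : hilb k A i = finrank k (Mi k A i) - finrank k (Mi k A (i + 1)) := by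
  set J := maximalIdeal A ^ i
  set J' := maximalIdeal A ^ (i + 1)
  have hle : J' ≤ J := Ideal.pow_le_pow_right (Nat.le_succ i)
  have h1 : finrank k (↥J ⧸ J'.submoduleOf J) =
      finrank k (↥J ⧸ (J'.submoduleOf J).restrictScalars k) :=
    (Submodule.Quotient.restrictScalarsEquiv k (J'.submoduleOf J)).finrank_eq.symm
  have : FiniteDimensional k ↥J :=
    inferInstanceAs (FiniteDimensional k ↥(J.restrictScalars k))
  have h2 := Submodule.finrank_quotient_add_finrank ((J'.submoduleOf J).restrictScalars k)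
  have h3 : finrank k ↥((J'.submoduleOf J).restrictScalars k) = finrank k ↥(Mi k A (i + 1)) :=
    ((Submodule.submoduleOfEquivOfLe hle).restrictScalars k).finrank_eq
  have h4 : finrank k ↥J = finrank k ↥(Mi k A i) := rfl
  unfold hilb
  change finrank k (↥J ⧸ J'.submoduleOf J) = _
  rw [h3, h4] at h2
  rw [h1]
  omega

variable {k A}

lemma exists_pow_eq_bot (k : Type u) {A : Type v} [Field k] [CommRing A] [Algebra k A]
    [IsLocalRing A] [Module.Finite k A] : ∃ D, maximalIdeal A ^ D = ⊥ := by
  have : IsArtinianRing A := IsArtinianRing.of_finite k A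
  obtain ⟨D, hD⟩ := IsArtinianRing.isNilpotent_jacobson_bot (R := A)
  rw [IsLocalRing.jacobson_eq_maximalIdeal ⊥ bot_ne_top] at hD
  exact ⟨D, hD⟩

omit [Module.Finite k A] in
lemma Mi_anti (i : ℕ) : Mi k A (i + 1) ≤ Mi k A i := by
  intro x hx
  exact Ideal.pow_le_pow_right (Nat.le_succ i) hx

omit [Module.Finite k A] in
lemma Mi_map {l : A} (hl : l ∈ maximalIdeal A) (i : ℕ) :
    (Mi k A i).map (LinearMap.mulLeft k l) ≤ Mi k A (i + 1) := by
  rintro _ ⟨x, hx, rfl⟩
  change l * x ∈ maximalIdeal A ^ (i + 1)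
  rw [pow_succ']
  exact Ideal.mul_mem_mul hl hx

lemma antitone_of_le {l : A} (hl : l ∈ maximalIdeal A) {v : ℕ}
    (hv : Mi k A (v + 1) ≤ (Mi k A v).map (LinearMap.mulLeft k l) ⊔ Mi k A (v + 2)) :
    ∀ n, hilb k A (v + 1 + n) ≤ hilb k A (v + n) := by
  have : IsArtinianRing A := IsArtinianRing.of_finite k A
  have h1 : maximalIdeal A ^ (v + 1) ≤ Ideal.span {l} * maximalIdeal A ^ v := by
    refine Submodule.le_of_le_smul_of_le_jacobson_bot (I := maximalIdeal A)
      (IsNoetherian.noetherian _) (IsLocalRing.jacobson_eq_maximalIdeal ⊥ bot_ne_top).ge ?_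
    intro x hx
    obtain ⟨y, hy, z, hz, rfl⟩ := Submodule.mem_sup.1 (hv hx)
    obtain ⟨w, hw, rfl⟩ := hy
    refine Submodule.add_mem_sup ?_ ?_
    · exact Ideal.mul_mem_mul (Ideal.mem_span_singleton_self l) hw
    · have : z ∈ maximalIdeal A ^ (v + 2) := hz
      rw [pow_succ'] at this
      exact this
  have h2 : ∀ n, (Mi k A (v + n)).map (LinearMap.mulLeft k l) = Mi k A (v + n + 1) := by
    intro n
    refine le_antisymm (Mi_map hl _) ?_
    intro x hx
    have h3 : maximalIdeal A ^ (v + n + 1) ≤ Ideal.span {l} * maximalIdeal A ^ (v + n) := by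
      calc maximalIdeal A ^ (v + n + 1) = maximalIdeal A ^ (v + 1) * maximalIdeal A ^ n := by
            rw [← pow_add]; congr 1; omega
        _ ≤ Ideal.span {l} * maximalIdeal A ^ v * maximalIdeal A ^ n := Ideal.mul_mono_left h1
        _ = Ideal.span {l} * maximalIdeal A ^ (v + n) := by rw [mul_assoc, ← pow_add]
    obtain ⟨y, hy, hxy⟩ := Ideal.mem_span_singleton_mul.1 (h3 hx)
    exact ⟨y, hy, hxy⟩
  intro n
  have h3 := h2 n
  have h4 := h2 (n + 1)
  have h5 := finrank_map_add (LinearMap.mulLeft k l) (Mi k A (v + n))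
  have h6 := finrank_map_add (LinearMap.mulLeft k l) (Mi k A (v + (n + 1)))
  have h7 : finrank k (Mi k A (v + (n + 1)) ⊓ LinearMap.ker (LinearMap.mulLeft k l) :
      Submodule k A) ≤ finrank k (Mi k A (v + n) ⊓ LinearMap.ker (LinearMap.mulLeft k l) :
      Submodule k A) := Submodule.finrank_mono (inf_le_inf_right _ (Mi_anti (v + n)))
  rw [h3] at h5
  rw [h4] at h6
  rw [hilb_eq, hilb_eq]
  have e1 : v + 1 + n = v + (n + 1) := by omega
  have e2 : v + n + 1 = v + (n + 1) := by omega
  rw [e1]
  rw [e2] at h5 ⊢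
  omega

/-- The Jordan type of an element of the maximal ideal of a local Artinian algebra dominates the
contiguous partition of the Hilbert function only if the Hilbert function is unimodal, and then
the two partitions are equal. -/
theorem main {l : A} (hl : l ∈ maximalIdeal A) {P : Multiset ℕ}
    (hP : IsJordanType k (LinearMap.mulLeft k l) P) (hdom : Dominates P (contiguous (hilb k A))) :
    Unimodal (hilb k A) ∧ P = contiguous (hilb k A) := by
  obtain ⟨D, hD⟩ := exists_pow_eq_bot k (A := A)
  have hM0 : Mi k A 0 = ⊤ := by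
    rw [Mi, pow_zero, Ideal.one_eq_top, Submodule.restrictScalars_top]
  have hMbot : ∀ i, D ≤ i → Mi k A i = ⊥ := by
    intro i hi
    have : maximalIdeal A ^ i = ⊥ := by
      rw [eq_bot_iff, ← hD]
      exact Ideal.pow_le_pow_right hi
    rw [Mi, this, Submodule.restrictScalars_bot]
  have hh : ∀ i, D ≤ i → hilb k A i = 0 := by
    intro i hi
    rw [hilb_eq, hMbot i hi, finrank_bot, Nat.zero_sub]
  -- the upper bound
  have hup : ∀ q, partialSum P q ≤ ∑ i ∈ Finset.range D, min q (hilb k A i) := by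
    intro q
    obtain ⟨N, hN1, hN2, hN3⟩ := exists_sub hP q
    have := (core (D := D) hM0 (hMbot D le_rfl) Mi_anti (Mi_map hl) hN1 hN2).1
    rw [← hN3]
    simp_rw [hilb_eq]
    exact this
  -- no valley
  have hno : ∀ q v, hilb k A v = q →
      ∀ i j, i < v → v < j → hilb k A v < hilb k A i → hilb k A v < hilb k A j → False := by
    intro q
    induction q using Nat.strong_induction_on with
    | _ q ih =>
      intro v hvq i j hiv hvj hvi hvj'
      have hc : ∀ i v j, i < v → v < j → hilb k A v < hilb k A i → hilb k A v < hilb k A j →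
          q ≤ hilb k A v := by
        intro i' v' j' h1 h2 h3 h4
        by_contra hcon
        exact ih _ (not_le.1 hcon) v' rfl i' j' h1 h2 h3 h4
      have h1 := sum_min_le hh hc
      obtain ⟨N, hN1, hN2, hN3⟩ := exists_sub hP q
      have h2 := (core (D := D) hM0 (hMbot D le_rfl) Mi_anti (Mi_map hl) hN1 hN2).2
      have h3 := h2 (by
        rw [hN3]
        refine le_trans ?_ (h1.trans (hdom q))
        simp_rw [hilb_eq]
        exact le_rfl)
      obtain ⟨w, rfl⟩ : ∃ w, v = w + 1 := ⟨v - 1, by omega⟩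
      have hvD : w + 1 < D := by
        by_contra hcon
        rw [hh j (by omega)] at hvj'
        omega
      have hw : q ≤ hilb k A w := by
        by_contra hcon
        have hiw : i ≠ w := by rintro rfl; omega
        have := hc i w j (by omega) (by omega) (by omega) (by omega)
        omega
      have h4 := (h3 w (by omega)).1 (by rw [← hilb_eq]; exact hw)
      have h5 := (h3 (w + 1) hvD).2 (by rw [← hilb_eq]; exact hvq.le)
      have h6 : Mi k A (w + 1) ≤ (Mi k A w).map (LinearMap.mulLeft k l) ⊔ Mi k A (w + 2) := by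
        refine h5.trans (sup_le_sup_right (h4.trans (Submodule.map_mono inf_le_right)) _)
      have h7 := antitone_of_le hl h6
      have h8 : ∀ n, hilb k A (w + 1 + n) ≤ hilb k A (w + 1) := by
        intro n
        induction n with
        | zero => exact le_rfl
        | succ n ihn =>
          have := h7 (n + 1)
          have e : w + (n + 1) = w + 1 + n := by omega
          rw [e] at this
          exact this.trans ihn
      have h9 := h8 (j - (w + 1))
      rw [Nat.add_sub_cancel' hvj.le] at h9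
      omega
  refine ⟨unimodal_of_no_valley hh fun i v j => hno _ v rfl i j, ?_⟩
  refine eq_of_partialSum ?_ contiguous_pos fun q => ?_
  · obtain ⟨ι, _, p, b, hp, -, rfl⟩ := hP
    intro x hx
    obtain ⟨i, -, rfl⟩ := Multiset.mem_map.1 hx
    exact hp i
  · refine le_antisymm ((hup q).trans (sum_min_le hh fun i v j h1 h2 h3 h4 => ?_)) (hdom q)
    exact (hno _ v rfl i j h1 h2 h3 h4).elim

end local_alg

end Pool.Agent.R686.JT
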