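import Mathlib

set_option autoImplicit false

/-!
# Weighted inclusion matrices of simplices and of pure simplicial forests

`U a f` is the function on finite sets whose value at `S` is the sum of `a v * f (S.erase v)`
over the elements `v` of `S`.
-/

namespace Pool.Agent.R686.SLP

variable {V K : Type*} [DecidableEq V] [Field K]

/-- Multiplication by the linear form with coefficients `a`, on coefficient functions. -/
def U (a : V → K) (f : Finset V → K) : Finset V → K :=
  fun S => ∑ v ∈ S, a v * f (S.erase v)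

variable {a : V → K}

lemma U_add (f g : Finset V → K) : U a (f + g) = U a f + U a g := by
  funext S
  simp [U, mul_add, Finset.sum_add_distrib]

lemma U_smul (c : K) (f : Finset V → K) : U a (c • f) = c • U a f := by
  funext S
  simp only [U, Pi.smul_apply, smul_eq_mul, Finset.mul_sum]
  exact Finset.sum_congr rfl fun v _ => by ring

lemma Upow_add (j : ℕ) (f g : Finset V → K) :
    (U a)^[j] (f + g) = (U a)^[j] f + (U a)^[j] g := by
  induction j with
  | zero => rfl
  | succ j ih => rw [Function.iterate_succ_apply', Function.iterate_succ_apply',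
      Function.iterate_succ_apply', ih, U_add]

lemma Upow_smul (j : ℕ) (c : K) (f : Finset V → K) :
    (U a)^[j] (c • f) = c • (U a)^[j] f := by
  induction j with
  | zero => rfl
  | succ j ih => rw [Function.iterate_succ_apply', Function.iterate_succ_apply', ih, U_smul]

/-- Locality. -/
lemma Upow_congr (j : ℕ) {f g : Finset V → K} {S : Finset V}
    (h : ∀ R ⊆ S, R.card + j = S.card → f R = g R) : (U a)^[j] f S = (U a)^[j] g S := by
  induction j generalizing S with
  | zero => exact h S (Finset.Subset.refl _) rfl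
  | succ j ih =>
    rw [Function.iterate_succ_apply', Function.iterate_succ_apply']
    refine Finset.sum_congr rfl fun v hv => ?_
    rw [ih]
    intro R hR hc
    refine h R (hR.trans (Finset.erase_subset _ _)) ?_
    have := Finset.card_erase_add_one hv
    omega

lemma Upow_zero (j : ℕ) : (U a)^[j] (0 : Finset V → K) = 0 := by
  induction j with
  | zero => rfl
  | succ j ih => rw [Function.iterate_succ_apply', ih]; funext S; simp [U]

lemma Upow_eq_zero (j : ℕ) {f : Finset V → K} {S : Finset V}
    (h : ∀ R ⊆ S, R.card + j = S.card → f R = 0) : (U a)^[j] f S = 0 := by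
  rw [Upow_congr (g := 0) j (fun R hR hc => by simpa using h R hR hc), Upow_zero]
  rfl

/-- The value at a set containing `v`. -/
lemma Upow_insert (j : ℕ) (f : Finset V → K) {v : V} {T : Finset V} (hv : v ∉ T) :
    (U a)^[j + 1] f (insert v T) = (U a)^[j + 1] (fun R => f (insert v R)) T +
      (j + 1 : ℕ) * a v * (U a)^[j] f T := by
  induction j generalizing T with
  | zero =>
    simp only [Nat.cast_one, zero_add, Function.iterate_one, Function.iterate_zero, id]
    unfold U
    rw [Finset.sum_insert hv, Finset.erase_insert hv, add_comm]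
    congr 1
    · refine Finset.sum_congr rfl fun w hw => ?_
      have hne : w ≠ v := fun h => hv (h ▸ hw)
      rw [Finset.erase_insert_of_ne hne.symm]
    · ring
  | succ j ih =>
    rw [Function.iterate_succ_apply' (U a) (j + 1) f]
    rw [U, Finset.sum_insert hv, Finset.erase_insert hv]
    have h1 : ∀ w ∈ T, a w * (U a)^[j + 1] f ((insert v T).erase w) =
        a w * (U a)^[j + 1] (fun R => f (insert v R)) (T.erase w) +
        (j + 1 : ℕ) * a v * (a w * (U a)^[j] f (T.erase w)) := by
      intro w hw
      have hne : w ≠ v := fun h => hv (h ▸ hw)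
      rw [Finset.erase_insert_of_ne hne.symm, ih (fun h => hv (Finset.mem_of_mem_erase h))]
      ring
    rw [Finset.sum_congr rfl h1, Finset.sum_add_distrib, ← Finset.mul_sum]
    rw [Function.iterate_succ_apply' (U a) (j + 1) (fun R => f (insert v R))]
    have h2 : ∑ w ∈ T, a w * (U a)^[j] f (T.erase w) = (U a)^[j + 1] f T := by
      rw [Function.iterate_succ_apply']; rfl
    have h3 : ∑ w ∈ T, a w * (U a)^[j + 1] (fun R => f (insert v R)) (T.erase w) =
      U a ((U a)^[j + 1] (fun R => f (insert v R))) T := rfl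
    rw [h2, h3]
    push_cast
    ring

/-- **Injectivity for a simplex.** -/
theorem inj_simplex (ha : ∀ v, a v ≠ 0) (F : Finset V)
    (hch : ∀ k : ℕ, 1 ≤ k → k ≤ F.card → (k : K) ≠ 0) :
    ∀ (i j : ℕ) (f : Finset V → K), 2 * i + j ≤ F.card →
      (∀ S ⊆ F, S.card = i + j → (U a)^[j] f S = 0) → ∀ T ⊆ F, T.card = i → f T = 0 := by
  induction F using Finset.induction_on with
  | empty =>
    intro i j f hij h T hT hc
    simp only [Finset.card_empty] at hij
    obtain rfl : j = 0 := by omega
    exact h T hT (by simpa using hc)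
  | insert v F hv ih =>
    have hch' : ∀ k : ℕ, 1 ≤ k → k ≤ F.card → (k : K) ≠ 0 := fun k h1 h2 =>
      hch k h1 (h2.trans (Finset.card_le_card (Finset.subset_insert _ _)))
    have ih := ih hch'
    intro i j f hij h T hT hc
    rw [Finset.card_insert_of_notMem hv] at hij
    rcases j with _ | j
    · exact h T hT (by simpa using hc)
    have hne : ((j + 1 : ℕ) : K) ≠ 0 :=
      hch (j + 1) (by omega) (by rw [Finset.card_insert_of_notMem hv]; omega)
    -- the relation on sets containing `v`
    have hrel : ∀ R ⊆ F, R.card = i + j → (U a)^[j + 1] (fun R => f (insert v R)) R +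
        (j + 1 : ℕ) * a v * (U a)^[j] f R = 0 := by
      intro R hR hcR
      have hvR : v ∉ R := fun h => hv (hR h)
      rw [← Upow_insert j f hvR]
      refine h _ (Finset.insert_subset_insert _ hR) ?_
      rw [Finset.card_insert_of_notMem hvR]
      omega
    have hz : ∀ S ⊆ F, S.card = i + (j + 1) → (U a)^[j + 1] f S = 0 := fun S hS hcS =>
      h S (hS.trans (Finset.subset_insert _ _)) hcS
    -- Step A
    have hA : ∀ R ⊆ F, R.card + 1 = i → f (insert v R) = 0 := by
      intro R hR hcR
      obtain ⟨i', rfl⟩ : ∃ i', i = i' + 1 := ⟨i - 1, by omega⟩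
      refine ih i' (j + 2) (fun R => f (insert v R)) (by omega) ?_ R hR (by omega)
      intro S hS hcS
      rw [Function.iterate_succ_apply']
      have h1 : ∀ w ∈ S, a w * (U a)^[j + 1] (fun R => f (insert v R)) (S.erase w) =
          -((j + 1 : ℕ) * a v) * (a w * (U a)^[j] f (S.erase w)) := by
        intro w hw
        have := hrel (S.erase w) ((Finset.erase_subset _ _).trans hS)
          (by have := Finset.card_erase_add_one hw; omega)
        rw [eq_neg_of_add_eq_zero_left this]
        ring
      rw [U, Finset.sum_congr rfl h1, ← Finset.mul_sum]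
      have h2 : ∑ w ∈ S, a w * (U a)^[j] f (S.erase w) = (U a)^[j + 1] f S := by
        rw [Function.iterate_succ_apply']; rfl
      rw [h2, hz S hS (by omega), mul_zero]
    -- Step B
    have hB : ∀ R ⊆ F, R.card = i + j → (U a)^[j] f R = 0 := by
      intro R hR hcR
      have h0 : (U a)^[j + 1] (fun R => f (insert v R)) R = 0 :=
        Upow_eq_zero _ fun Q hQ hcQ => hA Q (hQ.trans hR) (by omega)
      have := hrel R hR hcR
      rw [h0, zero_add] at this
      exact (mul_eq_zero.1 this).resolve_left (mul_ne_zero hne (ha v))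
    by_cases hvT : v ∈ T
    · have := hA (T.erase v) (by
        intro w hw
        rw [Finset.mem_erase] at hw
        exact (Finset.mem_insert.1 (hT hw.2)).resolve_left hw.1)
        (by rw [Finset.card_erase_add_one hvT, hc])
      rwa [Finset.insert_erase hvT] at this
    · refine ih i j f (by omega) hB T ?_ hc
      intro w hw
      exact (Finset.mem_insert.1 (hT hw)).resolve_left (fun h => hvT (h ▸ hw))

/-- **Surjectivity for a simplex.** -/
theorem surj_simplex (ha : ∀ v, a v ≠ 0) (F : Finset V)
    (hch : ∀ k : ℕ, 1 ≤ k → k ≤ F.card → (k : K) ≠ 0) :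
    ∀ (i j : ℕ) (g : Finset V → K), F.card ≤ 2 * i + j →
      ∃ f : Finset V → K, ∀ S ⊆ F, S.card = i + j → (U a)^[j] f S = g S := by
  induction F using Finset.induction_on with
  | empty =>
    intro i j g _
    rcases j with _ | j
    · exact ⟨g, fun S _ _ => rfl⟩
    · refine ⟨0, fun S hS hc => ?_⟩
      rw [Finset.subset_empty.1 hS] at hc
      simp at hc
  | insert v F hv ih =>
    have hch' : ∀ k : ℕ, 1 ≤ k → k ≤ F.card → (k : K) ≠ 0 := fun k h1 h2 =>
      hch k h1 (h2.trans (Finset.card_le_card (Finset.subset_insert _ _)))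
    have ih := ih hch'
    intro i j g hij
    rw [Finset.card_insert_of_notMem hv] at hij
    rcases j with _ | j
    · exact ⟨g, fun S _ _ => rfl⟩
    by_cases hbig : F.card + 1 < i + (j + 1)
    · refine ⟨0, fun S hS hc => ?_⟩
      have := Finset.card_le_card hS
      rw [Finset.card_insert_of_notMem hv] at this
      omega
    have hne : ((j + 1 : ℕ) : K) ≠ 0 :=
      hch (j + 1) (by omega) (by rw [Finset.card_insert_of_notMem hv]; omega)
    set c : K := (j + 1 : ℕ) * a v with hcdef
    have hc0 : c ≠ 0 := mul_ne_zero hne (ha v)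
    set G : Finset V → K := fun T => g (insert v T) with hG
    obtain ⟨f0, hf0⟩ := ih i j (fun T => c⁻¹ * G T) (by omega)
    obtain ⟨h, hh, hh2⟩ : ∃ h : Finset V → K,
        (∀ S ⊆ F, S.card = i + (j + 1) → (U a)^[j + 2] h S = U a G S - c * g S) ∧
        (i = 0 → h = 0) := by
      rcases i with _ | i
      · refine ⟨0, fun S hS hcS => ?_, fun _ => rfl⟩
        have := Finset.card_le_card hS
        omega
      · obtain ⟨h, hh⟩ := ih i (j + 2) (fun S => U a G S - c * g S) (by omega)
        exact ⟨h, fun S hS hcS => hh S hS (by omega), fun h => by simp at h⟩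
    let f : Finset V → K := fun T => if v ∈ T then h (T.erase v) else
      f0 T + (-c⁻¹) * U a h T
    have hfn : ∀ T, v ∉ T → f T = (f0 + (-c⁻¹) • U a h) T := by
      intro T hT
      simp [f, hT]
    have hfi : ∀ T, v ∉ T → f (insert v T) = h T := by
      intro T hT
      simp [f, Finset.erase_insert hT]
    have hpow : ∀ (m : ℕ) (T : Finset V), v ∉ T → (U a)^[m] f T =
        (U a)^[m] f0 T + (-c⁻¹) * (U a)^[m + 1] h T := by
      intro m T hT
      rw [Upow_congr (g := f0 + (-c⁻¹) • U a h) m
        (fun R hR _ => hfn R fun h => hT (hR h)), Upow_add, Upow_smul,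
        Function.iterate_succ_apply]
      rfl
    have hU0 : ∀ S ⊆ F, S.card = i + (j + 1) → (U a)^[j + 1] f0 S = c⁻¹ * U a G S := by
      intro S hS hcS
      rw [Function.iterate_succ_apply']
      have h1 : ∀ w ∈ S, a w * (U a)^[j] f0 (S.erase w) = c⁻¹ * (a w * G (S.erase w)) := by
        intro w hw
        rw [hf0 (S.erase w) ((Finset.erase_subset _ _).trans hS)
          (by have := Finset.card_erase_add_one hw; omega)]
        ring
      rw [U, Finset.sum_congr rfl h1, ← Finset.mul_sum]
      rfl
    refine ⟨f, fun S hS hcS => ?_⟩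
    by_cases hvS : v ∈ S
    · obtain ⟨T, hvT, rfl⟩ : ∃ T, v ∉ T ∧ S = insert v T :=
        ⟨S.erase v, Finset.notMem_erase _ _, (Finset.insert_erase hvS).symm⟩
      have hTF : T ⊆ F := by
        intro w hw
        exact (Finset.mem_insert.1 (hS (Finset.mem_insert_of_mem hw))).resolve_left
          (fun h => hvT (h ▸ hw))
      rw [Finset.card_insert_of_notMem hvT] at hcS
      rw [Upow_insert j f hvT, hpow j T hvT, hf0 T hTF (by omega)]
      have h1 : (U a)^[j + 1] (fun R => f (insert v R)) T = (U a)^[j + 1] h T := by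
        refine Upow_congr _ fun R hR _ => ?_
        exact hfi R fun h => hvT (hR h)
      rw [h1]
      simp only [hG]
      field_simp
      ring
    · have hSF : S ⊆ F := fun w hw => (Finset.mem_insert.1 (hS hw)).resolve_left
        (fun h => hvS (h ▸ hw))
      rw [hpow (j + 1) S hvS, hU0 S hSF hcS, hh S hSF hcS]
      field_simp
      ring

/-- **Surjectivity for a simplex relative to a proper face.** -/
theorem surj_relative (ha : ∀ v, a v ≠ 0) (n : ℕ)
    (hch : ∀ k : ℕ, 1 ≤ k → k ≤ n → (k : K) ≠ 0) :
    ∀ (F σ : Finset V), F.card ≤ n → σ ⊆ F → σ ≠ F → ∀ (i j : ℕ) (g : Finset V → K),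
      F.card + 1 ≤ 2 * i + j →
      ∃ f : Finset V → K, (∀ T, f T ≠ 0 → T ⊆ F ∧ ¬ T ⊆ σ) ∧
        ∀ S ⊆ F, ¬ S ⊆ σ → S.card = i + j → (U a)^[j] f S = g S := by
  intro F
  induction F using Finset.strongInduction with
  | H F ih =>
    intro σ hFn hσ hne i j g hij
    obtain ⟨v, hvF, hvσ⟩ : ∃ v ∈ F, v ∉ σ := by
      by_contra hcon
      push Not at hcon
      exact hne (Finset.Subset.antisymm hσ hcon)
    rcases i with _ | i
    · refine ⟨0, fun T hT => absurd rfl hT, fun S hS _ hc => ?_⟩
      have := Finset.card_le_card hS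
      omega
    have hcard := Finset.card_erase_add_one hvF
    -- first part
    obtain ⟨f1, hf1s, hf1⟩ : ∃ f : Finset V → K, (∀ T, f T ≠ 0 → T ⊆ F.erase v ∧ ¬ T ⊆ σ) ∧
        ∀ S ⊆ F.erase v, ¬ S ⊆ σ → S.card = i + 1 + j → (U a)^[j] f S = g S := by
      by_cases hs : σ = F.erase v
      · refine ⟨0, fun T hT => absurd rfl hT, fun S hS hS' _ => ?_⟩
        rw [hs] at hS'
        exact absurd hS hS'
      · refine ih (F.erase v) (Finset.erase_ssubset hvF) σ (by omega) ?_ hs (i + 1) j g (by omega)
        intro w hw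
        exact Finset.mem_erase.2 ⟨fun h => hvσ (h ▸ hw), hσ hw⟩
    -- second part
    obtain ⟨h, hh⟩ := surj_simplex ha (F.erase v)
      (fun k h1 h2 => hch k h1 (by omega)) i j
      (fun T => g (insert v T) - (U a)^[j] f1 (insert v T)) (by omega)
    let f2 : Finset V → K := fun T => if v ∈ T ∧ T ⊆ F then h (T.erase v) else 0
    refine ⟨f1 + f2, ?_, ?_⟩
    · intro T hT
      by_cases h1 : f1 T = 0
      · have h2 : f2 T ≠ 0 := by
          intro h2
          apply hT
          simp [h1, h2]
        by_cases hc : v ∈ T ∧ T ⊆ F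
        · exact ⟨hc.2, fun h => hvσ (h hc.1)⟩
        · exact absurd (by simp [f2, hc]) h2
      · obtain ⟨h1, h2⟩ := hf1s T h1
        exact ⟨h1.trans (Finset.erase_subset _ _), h2⟩
    · intro S hS hSσ hcS
      rw [Upow_add]
      change (U a)^[j] f1 S + (U a)^[j] f2 S = g S
      by_cases hvS : v ∈ S
      · obtain ⟨T, hvT, rfl⟩ : ∃ T, v ∉ T ∧ S = insert v T :=
          ⟨S.erase v, Finset.notMem_erase _ _, (Finset.insert_erase hvS).symm⟩
        have hTF : T ⊆ F.erase v := fun w hw => Finset.mem_erase.2
          ⟨fun h => hvT (h ▸ hw), hS (Finset.mem_insert_of_mem hw)⟩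
        rw [Finset.card_insert_of_notMem hvT] at hcS
        have hfi : ∀ R ⊆ T, f2 (insert v R) = h R := by
          intro R hR
          have hvR : v ∉ R := fun h => hvT (hR h)
          have : insert v R ⊆ F := (Finset.insert_subset_insert _ hR).trans hS
          simp [f2, this, Finset.erase_insert hvR]
        have h2 : (U a)^[j] f2 (insert v T) = (U a)^[j] h T := by
          rcases j with _ | j
          · exact hfi T (Finset.Subset.refl _)
          · rw [Upow_insert j f2 hvT]
            have h3 : (U a)^[j] f2 T = 0 := Upow_eq_zero _ fun R hR _ => by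
              have hvR : v ∉ R := fun h => hvT (hR h)
              simp [f2, hvR]
            rw [h3, mul_zero, add_zero]
            exact Upow_congr _ fun R hR _ => hfi R hR
        rw [h2, hh T hTF (by omega)]
        ring
      · have hSF : S ⊆ F.erase v := fun w hw => Finset.mem_erase.2
          ⟨fun h => hvS (h ▸ hw), hS hw⟩
        have h2 : (U a)^[j] f2 S = 0 := Upow_eq_zero _ fun R hR _ => by
          have hvR : v ∉ R := fun h => hvS (hR h)
          simp [f2, hvR]
        rw [h2, add_zero, hf1 S hSF hSσ hcS]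

/-- **Surjectivity for a set of finite sets of the same size such that all its nonempty subsets
have a leaf.** -/
theorem surj_forest (ha : ∀ v, a v ≠ 0) (D : ℕ)
    (hch : ∀ k : ℕ, 1 ≤ k → k ≤ D → (k : K) ≠ 0) (i j : ℕ) (hij : D + 1 ≤ 2 * i + j)
    (g : Finset V → K) :
    ∀ 𝓕 : Finset (Finset V), (∀ F ∈ 𝓕, F.card = D) →
      (∀ 𝓖 ⊆ 𝓕, 𝓖.Nonempty → ∃ F ∈ 𝓖, 𝓖 = {F} ∨ ∃ G ∈ 𝓖, G ≠ F ∧
        ∀ F' ∈ 𝓖, F' ≠ F → F ∩ F' ⊆ F ∩ G) →
      ∃ f : Finset V → K, (∀ T, f T ≠ 0 → ∃ F ∈ 𝓕, T ⊆ F) ∧
        ∀ S : Finset V, S.card = i + j → (∃ F ∈ 𝓕, S ⊆ F) → (U a)^[j] f S = g S := by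
  intro 𝓕
  induction 𝓕 using Finset.strongInduction with
  | H 𝓕 ih =>
    intro hD hleaf
    rcases 𝓕.eq_empty_or_nonempty with rfl | hne
    · exact ⟨0, fun T hT => absurd rfl hT, by simp⟩
    obtain ⟨F, hF, hFl⟩ := hleaf 𝓕 (Finset.Subset.refl _) hne
    have hcF := hD F hF
    rcases hFl with hsing | ⟨G, hG, hGF, hl⟩
    · obtain ⟨f, hf⟩ := surj_simplex ha F (fun k h1 h2 => hch k h1 (by omega)) i j g (by omega)
      refine ⟨fun T => if T ⊆ F then f T else 0, fun T hT => ⟨F, hF, ?_⟩, ?_⟩
      · by_contra h
        simp [h] at hT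
      · intro S hS hSF
        rw [hsing] at hSF
        simp only [Finset.mem_singleton, exists_eq_left] at hSF
        rw [← hf S hSF hS]
        refine Upow_congr _ fun R hR _ => ?_
        simp [hR.trans hSF]
    · have hsub : 𝓕.erase F ⊆ 𝓕 := Finset.erase_subset _ _
      obtain ⟨f1, hf1s, hf1⟩ := ih (𝓕.erase F) (Finset.erase_ssubset hF)
        (fun F' h => hD F' (hsub h)) (fun 𝓖 h => hleaf 𝓖 (h.trans hsub))
      have hσF : F ∩ G ≠ F := by
        intro h
        have h1 : F ⊆ G := Finset.inter_eq_left.1 h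
        exact hGF (Finset.eq_of_subset_of_card_le h1 (by rw [hcF, hD G hG])).symm
      obtain ⟨f2, hf2s, hf2⟩ := surj_relative ha D hch F (F ∩ G) (by omega)
        Finset.inter_subset_left hσF i j (fun S => g S - (U a)^[j] f1 S) (by omega)
      refine ⟨f1 + f2, ?_, ?_⟩
      · intro T hT
        by_cases h1 : f1 T = 0
        · have h2 : f2 T ≠ 0 := by
            intro h2
            apply hT
            simp [h1, h2]
          exact ⟨F, hF, (hf2s T h2).1⟩
        · obtain ⟨F', hF', h⟩ := hf1s T h1
          exact ⟨F', hsub hF', h⟩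
      · intro S hcS hS
        rw [Upow_add]
        change (U a)^[j] f1 S + (U a)^[j] f2 S = g S
        by_cases hS' : ∃ F' ∈ 𝓕.erase F, S ⊆ F'
        · rw [hf1 S hcS hS']
          obtain ⟨F', hF', hSF'⟩ := hS'
          rw [Finset.mem_erase] at hF'
          have : (U a)^[j] f2 S = 0 := Upow_eq_zero _ fun R hR _ => by
            by_contra hne
            obtain ⟨h1, h2⟩ := hf2s R hne
            exact h2 ((Finset.subset_inter h1 (hR.trans hSF')).trans (hl F' hF'.2 hF'.1))
          rw [this, add_zero]
        · obtain ⟨F', hF', hSF'⟩ := hS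
          obtain rfl : F' = F := by
            by_contra hne
            exact hS' ⟨F', Finset.mem_erase.2 ⟨hne, hF'⟩, hSF'⟩
          rw [hf2 S hSF' ?_ hcS]
          · ring
          · intro h
            exact hS' ⟨G, Finset.mem_erase.2 ⟨hGF, hG⟩, h.trans Finset.inter_subset_right⟩

end Pool.Agent.R686.SLP
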